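import Pool.Agent.H98.RFC.Targets

/-!
Row MUL of the board rfc_modules: many boxes.
-/

set_option autoImplicit false

open MeasureTheory ProbabilityTheory

namespace Pool.Agent.H33.RFC

open Pool.Agent.H98.RFC

theorem pf_MUL (hSTEP : T_STEP) (hPL : T_PL) (hPM : T_PM) (hNN : T_NN) : T_MUL := by
  intro R J hJ h T hT Λ n
  have hqe : ∀ e, 0 ≤ qe J T e ∧ qe J T e ≤ 1 := by
    intro e
    unfold qe
    refine ⟨(Real.exp_pos _).le, ?_⟩
    rw [Real.exp_le_one_iff]
    have h1 := hJ.nonneg (e.1 - e.2)
    exact div_nonpos_of_nonpos_of_nonneg (by linarith) hT.le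
  induction n with
  | zero =>
    intro W y _ _ _
    simp only [Finset.univ_eq_empty, Finset.prod_empty, mul_one]
    rw [← Finset.sum_mul_sum]
    exact le_rfl
  | succ n ih =>
    intro W y hW hy hS
    have hih := ih (fun i => W i.castSucc) (fun i => y i.castSucc) (fun i => hW _) (fun i => hy _)
      (fun i j hij => hS _ _ (fun h => hij (Fin.castSucc_injective n h)))
    have hstep := hSTEP R J hJ h T hT (W (Fin.last n)) Λ (hW _) (y (Fin.last n)) (hy _)
      (fun S S' => ∏ i : Fin n, psi (qe J T) (prs R (W i.castSucc))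
        (((S : Set Site) ∪ (Λ : Set Site)ᶜ) \ (S' : Set Site)) (W i.castSucc) (y i.castSucc))
      (fun S S' => Finset.prod_nonneg fun i _ =>
        (hPM (qe J T) _ _ _ (W i.castSucc) (y i.castSucc) hqe (Set.Subset.refl _)).1)
      (fun S S' => by
        refine Finset.prod_congr rfl fun i _ => ?_
        refine hPL R (qe J T) _ _ (W i.castSucc) (y i.castSucc) (hy _) ?_
        intro z hz
        have hne : i.castSucc ≠ Fin.last n := (Fin.castSucc_lt_last i).ne
        have hz2 : z ∉ W (Fin.last n) := fun hz3 =>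
          Finset.disjoint_left.1 (hS _ _ hne) hz hz3
        simp only [Set.mem_sdiff, Set.mem_union, Set.mem_compl_iff, Finset.mem_coe,
          Finset.mem_sdiff, hz2, not_false_eq_true, and_true])
    have hnn := (hNN R J hJ h T hT (W (Fin.last n)) (y (Fin.last n)) (hy _)).1
    rw [Fin.prod_univ_castSucc]
    simp only [Fin.prod_univ_castSucc (n := n)]
    refine hstep.trans ?_
    refine (mul_le_mul_of_nonneg_left hih hnn).trans (le_of_eq ?_)
    ring

end Pool.Agent.H33.RFC
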